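import Pool.Agent.Helper57.ZF.Goals

/-! # The bilinear lemma (packet BL of project ZF, helper57) -/

set_option autoImplicit false

namespace Pool.Agent.Helper81.ZF

open Pool.Agent.Helper57.ZF

theorem cnt_le_card {α : Type} (s : Finset α) (q : α → Prop) : cnt s q ≤ s.card := by
  classical
  rw [cnt_eq]
  exact Finset.card_filter_le _ _

theorem exists_of_cnt_pos {α : Type} {s : Finset α} {q : α → Prop} (h : 1 ≤ cnt s q) :
    ∃ x ∈ s, q x := by
  classical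
  rw [cnt_eq] at h
  obtain ⟨x, hx⟩ := Finset.card_pos.mp h
  rw [Finset.mem_filter] at hx
  exact ⟨x, hx.1, hx.2⟩

theorem cnt_mono {α : Type} (s : Finset α) {q r : α → Prop} (h : ∀ x ∈ s, q x → r x) :
    cnt s q ≤ cnt s r := by
  classical
  rw [cnt_eq, cnt_eq]
  apply Finset.card_le_card
  intro x hx
  rw [Finset.mem_filter] at hx ⊢
  exact ⟨hx.1, h x hx.1 hx.2⟩

/-- double counting -/
theorem double_count {ι α β : Type} (I : Finset ι) (F₁ : Finset α) (F₂ : Finset β)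
    (G₁ : ι → Finset α) (G₂ : ι → Finset β) (C : ℕ) (h1 : ∀ i ∈ I, G₁ i ⊆ F₁)
    (h2 : ∀ i ∈ I, G₂ i ⊆ F₂)
    (h : ∀ f ∈ F₁, ∀ g ∈ F₂, cnt I (fun i => f ∈ G₁ i ∧ g ∈ G₂ i) ≤ C) :
    ∑ i ∈ I, (G₁ i).card * (G₂ i).card ≤ C * (F₁.card * F₂.card) := by
  classical
  have e1 : ∀ i ∈ I, (G₁ i).card * (G₂ i).card =
      ∑ x ∈ F₁ ×ˢ F₂, if (x.1 ∈ G₁ i ∧ x.2 ∈ G₂ i) then 1 else 0 := by
    intro i hi
    rw [← Finset.card_product, ← Finset.card_filter]
    congr 1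
    ext x
    simp only [Finset.mem_product, Finset.mem_filter]
    constructor
    · rintro ⟨hx, hy⟩
      exact ⟨⟨h1 i hi hx, h2 i hi hy⟩, hx, hy⟩
    · rintro ⟨_, hx, hy⟩
      exact ⟨hx, hy⟩
  rw [Finset.sum_congr rfl e1, Finset.sum_comm]
  calc ∑ x ∈ F₁ ×ˢ F₂, ∑ i ∈ I, (if (x.1 ∈ G₁ i ∧ x.2 ∈ G₂ i) then 1 else 0)
      ≤ ∑ x ∈ F₁ ×ˢ F₂, C := by
        apply Finset.sum_le_sum
        intro x hx
        rw [Finset.mem_product] at hx
        rw [← Finset.card_filter]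
        have := h x.1 hx.1 x.2 hx.2
        rwa [cnt_eq] at this
    _ = C * (F₁.card * F₂.card) := by
        rw [Finset.sum_const, Finset.card_product, smul_eq_mul, mul_comm]

theorem BL (hCL : G_CL) (hBLG : G_BLG) (hMEET : G_MEET) (hCNT : G_CNT) (hDBL : G_DBL) :
    G_BL := by
  classical
  intro E _ _ _
  obtain ⟨C₀, hC₀⟩ := hCL (E × E) (hDBL (E × E))
  refine ⟨16 * C₀ ^ 2 + 1, ?_⟩
  intro P F₁ F₂ k hF1 hF2 hL1 hL2 hk1 hk2
  rcases Nat.eq_zero_or_pos k with rfl | hkpos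
  · left; simp
  rcases Nat.lt_or_ge k 2 with hk | hk
  · -- k = 1
    obtain rfl : k = 1 := by omega
    left
    have hf : ∀ p : E × E, ∃ f : (E →L[ℝ] E) × E, p ∈ P → f ∈ F₁ ∧ On p f := by
      intro p
      by_cases hp : p ∈ P
      · obtain ⟨f, hf, hf'⟩ := exists_of_cnt_pos (hk1 p hp)
        exact ⟨f, fun _ => ⟨hf, hf'⟩⟩
      · exact ⟨0, fun h => absurd h hp⟩
    have hg : ∀ p : E × E, ∃ g : (E →L[ℝ] E) × E, p ∈ P → g ∈ F₂ ∧ Ov p g := by
      intro p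
      by_cases hp : p ∈ P
      · obtain ⟨f, hf, hf'⟩ := exists_of_cnt_pos (hk2 p hp)
        exact ⟨f, fun _ => ⟨hf, hf'⟩⟩
      · exact ⟨0, fun h => absurd h hp⟩
    choose f hf using hf
    choose g hg using hg
    have hcard : P.card ≤ (F₁ ×ˢ F₂).card := by
      apply Finset.card_le_card_of_injOn (fun p => (f p, g p))
      · intro p hp
        have hp' : p ∈ P := hp
        simp only [Finset.coe_product, Set.mem_prod, Finset.mem_coe]
        exact ⟨(hf p hp').1, (hg p hp').1⟩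
      · intro p hp q hq hpq
        have hp' : p ∈ P := hp
        have hq' : q ∈ P := hq
        simp only [Prod.mk.injEq] at hpq
        obtain ⟨z, -, hz⟩ := hMEET E (f p) (g p) (hF1 _ (hf p hp').1) (hF2 _ (hg p hp').1)
        have h1 := hz p ⟨(hf p hp').2, (hg p hp').2⟩
        have h2 := hz q ⟨by rw [hpq.1]; exact (hf q hq').2, by rw [hpq.2]; exact (hg q hq').2⟩
        rw [h1, h2]
    rw [Finset.card_product] at hcard
    calc P.card * 1 ^ 3 = P.card := by ring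
      _ ≤ F₁.card * F₂.card := hcard
      _ ≤ (16 * C₀ ^ 2 + 1) * (F₁.card * F₂.card) := Nat.le_mul_of_pos_left _ (by positivity)
  rcases Nat.lt_or_ge P.card k with hPk | hPk
  · right
    have h := hCNT (E × E) ((E →L[ℝ] E) × E) P F₁ On k hk1 hPk.le hL1
    exact h.trans (Nat.mul_le_mul_left 2 (cnt_le_card _ _))
  · left
    obtain ⟨ι, I, S, w, b, ρ, hS, hz, hP⟩ := hC₀ P k hk hPk
    have hex : ∀ i : ι, ∃ G : Finset ((E →L[ℝ] E) × E) × Finset ((E →L[ℝ] E) × E), i ∈ I →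
        G.1 ⊆ F₁ ∧ G.2 ⊆ F₂ ∧ k * k ≤ 4 * G.1.card ∧ k * k ≤ 4 * G.2.card ∧
        ∀ f ∈ G.1, ∀ g ∈ G.2, ∀ z : E × E, On z f → Ov z g →
          b i < dist z (w i) ∧ dist z (w i) ≤ 2 * ρ i := by
      intro i
      by_cases hi : i ∈ I
      · obtain ⟨hSP, hSk, hb, hd⟩ := hS i hi
        obtain ⟨G₁, hG1, G₂, hG2, hc1, hc2, hloc⟩ := hBLG E (S i) F₁ F₂ k (w i) (b i) (ρ i) hF1 hF2
          (fun p hp q hq => hL1 p (hSP hp) q (hSP hq))
          (fun p hp q hq => hL2 p (hSP hp) q (hSP hq))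
          (fun p hp => hk1 p (hSP hp)) (fun p hp => hk2 p (hSP hp)) hSk hb hd
        exact ⟨(G₁, G₂), fun _ => ⟨hG1, hG2, hc1, hc2, hloc⟩⟩
      · exact ⟨(∅, ∅), fun h => absurd h hi⟩
    choose G hG using hex
    have hdc := double_count I F₁ F₂ (fun i => (G i).1) (fun i => (G i).2) C₀
      (fun i hi => (hG i hi).1) (fun i hi => (hG i hi).2.1) (by
        intro f hf g hg
        obtain ⟨z, ⟨hz1, hz2⟩, -⟩ := hMEET E f g (hF1 f hf) (hF2 g hg)
        refine (cnt_mono I ?_).trans (hz z)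
        intro i hi hfg
        exact (hG i hi).2.2.2.2 f hfg.1 g hfg.2 z hz1 hz2)
    have hlow : I.card * k ^ 4 ≤ 16 * ∑ i ∈ I, (G i).1.card * (G i).2.card := by
      rw [Finset.mul_sum, ← smul_eq_mul, ← Finset.sum_const]
      apply Finset.sum_le_sum
      intro i hi
      have h1 := (hG i hi).2.2.1
      have h2 := (hG i hi).2.2.2.1
      calc k ^ 4 = (k * k) * (k * k) := by ring
        _ ≤ (4 * (G i).1.card) * (4 * (G i).2.card) := Nat.mul_le_mul h1 h2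
        _ = 16 * ((G i).1.card * (G i).2.card) := by ring
    calc P.card * k ^ 3 ≤ (C₀ * k * I.card) * k ^ 3 := Nat.mul_le_mul_right _ hP
      _ = C₀ * (I.card * k ^ 4) := by ring
      _ ≤ C₀ * (16 * (C₀ * (F₁.card * F₂.card))) :=
          Nat.mul_le_mul_left _ (hlow.trans (Nat.mul_le_mul_left _ hdc))
      _ = (16 * C₀ ^ 2) * (F₁.card * F₂.card) := by ring
      _ ≤ (16 * C₀ ^ 2 + 1) * (F₁.card * F₂.card) := Nat.mul_le_mul_right _ (Nat.le_succ _)

end Pool.Agent.Helper81.ZF
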