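import Pool.Agent.Helper57.ZF.Goals

/-! # Minimal radius (packet MINR of project ZF, helper57) -/

set_option autoImplicit false

namespace Pool.Agent.Helper81.ZF

open Pool.Agent.Helper57.ZF

theorem MINR : G_MINR := by
  classical
  intro D Q hD hex
  obtain ⟨r, hr⟩ := hex
  obtain ⟨d, hd, -, hQd⟩ := hD r hr
  obtain ⟨ρ, hρ, hmin⟩ := Finset.exists_min_image (D.filter Q) id
    ⟨d, Finset.mem_filter.mpr ⟨hd, hQd⟩⟩
  rw [Finset.mem_filter] at hρ
  refine ⟨ρ, hρ.1, hρ.2, ?_⟩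
  intro s hs hQs
  obtain ⟨d', hd', hle, hQd'⟩ := hD s hQs
  have := hmin d' (Finset.mem_filter.mpr ⟨hd', hQd'⟩)
  simp only [id] at this
  linarith

end Pool.Agent.Helper81.ZF
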